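import Pool.Agent.H95.ILV.Targets

/-!
# MP_de9001_an, row KB: the steps
-/

set_option autoImplicit false

open MeasureTheory AddCircle Filter Topology Pool.Agent.H87.Synth Pool.Agent.H23.Synth
  Pool.Agent.H95.ILV

namespace Pool.Agent.H1.ILV

theorem pf_KB : T_KB := by
  intro i j
  have hm : 0 < mm i := Nat.succ_pos _
  have hdm := Nat.div_add_mod j (mm i)
  have hr : j % mm i < mm i := Nat.mod_lt _ hm
  unfold aa
  generalize hmdef : mm i = m at *
  generalize hq : j / m = q at *
  generalize hrr : j % m = r at *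
  refine ⟨?_, Nat.mul_le_mul_left _ (Nat.le_add_right _ _), ?_⟩
  · rcases Nat.lt_or_ge (r + 1) m with h | h
    · have h1 : j + 1 = (r + 1) + m * q := by omega
      have h2 : (j + 1) / m = q := by
        rw [h1, Nat.add_mul_div_left _ _ hm, Nat.div_eq_of_lt h, zero_add]
      have h3 : (j + 1) % m = r + 1 := by
        rw [h1, Nat.add_mul_mod_self_left, Nat.mod_eq_of_lt h]
      rw [h2, h3]
      ring
    · have hrm : m = r + 1 := by omega
      have h1 : j + 1 = 0 + m * (q + 1) := by
        rw [Nat.mul_succ]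
        omega
      have h2 : (j + 1) / m = q + 1 := by
        rw [h1, Nat.add_mul_div_left _ _ hm, Nat.zero_div, zero_add]
      have h3 : (j + 1) % m = 0 := by
        rw [h1, Nat.add_mul_mod_self_left, Nat.zero_mod]
      rw [h2, h3, hrm, pow_succ]
      ring
  · have h1 : 2 ^ q * (m + r) + 2 ^ q = 2 ^ q * (m + (r + 1)) := by ring
    rw [h1]
    exact Nat.mul_le_mul_left _ (by omega)

end Pool.Agent.H1.ILV
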