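import Pool.Agent.H95.ILV.Targets
import Pool.Agent.H89.ILV.L2B

/-!
# MP_de9001_an, row L2E: the weighted square mean of a separated exponential sum
-/

set_option autoImplicit false

open MeasureTheory AddCircle Filter Topology Pool.Agent.H87.Synth Pool.Agent.H23.Synth
  Pool.Agent.H95.ILV

namespace Pool.Agent.H1.ILV

open scoped ComplexConjugate

theorem pf_L2E (h : T_FWI) : T_L2E := by
  classical
  intro ι s ν g n hn hsep
  have hn0 : (0 : ℝ) < n := by exact_mod_cast hn
  have e := Pool.Agent.H89.ILV.int_es_sq h s ν g n hn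
  have h1 : ∑ a ∈ s, ∑ b ∈ s, g a * conj (g b) *
      ((max 0 (1 - |((ν a - ν b : ℤ) : ℝ)| / n) : ℝ) : ℂ) = ((∑ a ∈ s, ‖g a‖ ^ 2 : ℝ) : ℂ) := by
    rw [Complex.ofReal_sum]
    refine Finset.sum_congr rfl fun a ha => ?_
    rw [Finset.sum_eq_single a]
    · rw [sub_self, Int.cast_zero, abs_zero, zero_div, sub_zero, max_eq_right zero_le_one,
        Complex.ofReal_one, mul_one, Complex.mul_conj']
      push_cast
      rfl
    · intro b hb hne
      have h5 : (n : ℝ) ≤ |((ν a - ν b : ℤ) : ℝ)| := by
        rw [← Int.cast_abs]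
        exact_mod_cast hsep a ha b hb hne.symm
      have h6 : max 0 (1 - |((ν a - ν b : ℤ) : ℝ)| / n) = 0 := by
        refine max_eq_left ?_
        rw [sub_nonpos, le_div_iff₀ hn0, one_mul]
        exact h5
      rw [h6, Complex.ofReal_zero, mul_zero]
    · intro h2
      exact absurd ha h2
  rw [h1] at e
  exact Complex.ofReal_injective e

end Pool.Agent.H1.ILV
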