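import Pool.Agent.H95.ILV.Targets

/-!
# MP_de9001_an, row PLR: the plateau of one region
-/

set_option autoImplicit false

open MeasureTheory AddCircle Filter Topology Pool.Agent.H87.Synth Pool.Agent.H23.Synth
  Pool.Agent.H95.ILV

namespace Pool.Agent.H1.ILV

theorem pf_PLR (h : T_GEL) : T_PLR := by
  intro c T M u κ s f hG hF i n h1 h2
  obtain ⟨-, -, hstep, -, -, -⟩ := h c T M u κ hG
  have hlo : 2 ^ Nat.log 2 (i + 1) ≤ i + 1 := Nat.pow_log_le_self 2 (Nat.succ_ne_zero i)
  have hhi : i + 1 < 2 ^ (Nat.log 2 (i + 1) + 1) := Nat.lt_pow_succ_log_self (by norm_num) _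
  have hmono : ∀ a b, a ≤ b → ∀ v : ℕ, v ≤ 5 → Bd M κ a + v * u a ≤ Bd M κ b + v * u b := by
    intro a b hab v hv
    rcases hab.eq_or_lt with rfl | hlt
    · exact le_rfl
    · have h3 := hstep a b hlt
      have h4 : v * u a ≤ 5 * u a := Nat.mul_le_mul_right _ hv
      omega
  generalize hk : Nat.log 2 (i + 1) = k at *
  refine hF.pl k n ?_ ?_
  · rcases Nat.eq_zero_or_pos k with hk0 | hk0
    · exact Or.inl hk0
    · right
      obtain ⟨l, rfl⟩ : ∃ l, k = l + 1 := ⟨k - 1, by omega⟩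
      have h3 : 2 ^ (l + 1) - 1 ≤ i := by omega
      have h4 := hmono (2 ^ (l + 1) - 1) i h3 4 (by norm_num)
      have hi : i ≠ 0 := by
        rintro rfl
        have h5 : 2 ^ 1 ≤ 2 ^ (l + 1) := Nat.pow_le_pow_right (by norm_num) (by omega)
        omega
      rcases h1 with h1 | h1
      · exact absurd h1 hi
      · rw [Nat.add_sub_cancel]
        exact h4.trans h1
  · have h3 : i + 1 ≤ 2 ^ (k + 1) - 1 := by omega
    have h4 := hmono (i + 1) (2 ^ (k + 1) - 1) h3 1 (by norm_num)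
    rw [one_mul, one_mul] at h4
    exact h2.trans h4

end Pool.Agent.H1.ILV
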